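import Pool.Agent.helper24.NR.Spec

/-!
# Row QSF of MP_133bfc_co
-/

set_option autoImplicit false

namespace Pool.Agent.NR

open Finset

theorem QSF_walk {V : Type} (G : SimpleGraph V) : ∀ (k : ℕ) (p : ℕ → V), (∀ i, i < k → G.Adj (p i) (p (i + 1))) →
    ∃ w : G.Walk (p 0) (p k), w.length = k ∧ (∀ i, i ≤ k → w.getVert i = p i) ∧ w.support = (List.range (k + 1)).map p := by
  intro k
  induction k with
  | zero =>
    intro p _
    refine ⟨SimpleGraph.Walk.nil, rfl, ?_, rfl⟩
    intro i hi
    have h0 : i = 0 := by omega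
    subst h0
    rfl
  | succ k ih =>
    intro p hp
    obtain ⟨w, hl, hg, hs⟩ := ih (fun i => p (i + 1)) (fun i hi => hp (i + 1) (by omega))
    refine ⟨SimpleGraph.Walk.cons (hp 0 (by omega)) w, ?_, ?_, ?_⟩
    · rw [SimpleGraph.Walk.length_cons, hl]
    · intro i hi
      cases i with
      | zero => rfl
      | succ i =>
        rw [SimpleGraph.Walk.getVert_cons_succ]
        exact hg i (by omega)
    · rw [SimpleGraph.Walk.support_cons, hs, List.range_succ_eq_map (n := k + 1), List.map_cons, List.map_map]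
      rfl

theorem QSF_adj {V F : Type} [Fintype V] [DecidableEq V] (M : PolyMap V F) (f g : F) (u v : V) (huv : u ≠ v)
    (hf : s(u, v) ∈ M.es f) (hu : u ∈ M.vs f) (hv : v ∈ M.vs f) (hu' : u ∈ M.vs g) (hv' : v ∈ M.vs g) : s(u, v) ∈ M.es g := by
  by_cases hfg : f = g
  · rw [← hfg]
    exact hf
  rcases M.meet f g hfg with h | ⟨a, h⟩ | ⟨a, b, hab, _, hg, h⟩
  · exact absurd ⟨hu, hu'⟩ (h u)
  · exact absurd (((h u).1 ⟨hu, hu'⟩).trans ((h v).1 ⟨hv, hv'⟩).symm) huv
  · have h1 := (h u).1 ⟨hu, hu'⟩
    have h2 := (h v).1 ⟨hv, hv'⟩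
    rcases h1 with rfl | rfl
    · rcases h2 with rfl | rfl
      · exact absurd rfl huv
      · exact hg
    · rcases h2 with rfl | rfl
      · rw [Sym2.eq_swap]
        exact hg
      · exact absurd rfl huv

theorem QSF_both {V F : Type} [Fintype V] [DecidableEq V] (M : PolyMap V F) (f g : F) (hfg : f ≠ g) (u v : V) (huv : u ≠ v)
    (hu : u ∈ M.vs f) (hv : v ∈ M.vs f) (hu' : u ∈ M.vs g) (hv' : v ∈ M.vs g) : s(u, v) ∈ M.es f ∧ s(u, v) ∈ M.es g := by
  rcases M.meet f g hfg with h | ⟨a, h⟩ | ⟨a, b, hab, hf, hg, h⟩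
  · exact absurd ⟨hu, hu'⟩ (h u)
  · exact absurd (((h u).1 ⟨hu, hu'⟩).trans ((h v).1 ⟨hv, hv'⟩).symm) huv
  · have h1 := (h u).1 ⟨hu, hu'⟩
    have h2 := (h v).1 ⟨hv, hv'⟩
    rcases h1 with rfl | rfl
    · rcases h2 with rfl | rfl
      · exact absurd rfl huv
      · exact ⟨hf, hg⟩
    · rcases h2 with rfl | rfl
      · rw [Sym2.eq_swap]
        exact ⟨hf, hg⟩
      · exact absurd rfl huv

theorem QSF : QSF_stmt := by
  intro V F _ _ M x y f hxy hx hy
  have hcyc := M.isCycle f
  have h3 := M.three_le f
  by_cases hE : s(x, y) ∈ M.es f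
  · have hadj : (gr M.es).Adj x y := ⟨hxy, f, hE⟩
    refine ⟨SimpleGraph.Walk.cons hadj SimpleGraph.Walk.nil, ?_, ?_⟩
    · rw [SimpleGraph.Walk.cons_isPath_iff]
      refine ⟨SimpleGraph.Walk.IsPath.nil, ?_⟩
      rw [SimpleGraph.Walk.support_nil, List.mem_singleton]
      exact hxy
    · intro g i j hij hj hi' hj' k hik hkj
      have hl : (SimpleGraph.Walk.cons hadj SimpleGraph.Walk.nil : (gr M.es).Walk x y).length = 1 := rfl
      rw [hl] at hj
      have hi0 : i = 0 := by omega
      have hj1 : j = 1 := by omega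
      have hk0 : k = 0 := by omega
      subst hi0 hj1 hk0
      exact QSF_adj M f g x y hxy hE hx hy hi' hj'
  · have hxs : (M.bd f) x ≠ x := Equiv.Perm.mem_support.1 hx
    let p : ℕ → V := fun i => Nat.rec x (fun _ v => (M.bd f) v) i
    have hp0 : p 0 = x := rfl
    have hps : ∀ i, p (i + 1) = (M.bd f) (p i) := fun i => rfl
    have hpp : ∀ i, p i = ((M.bd f) ^ i) x := by
      intro i
      induction i with
      | zero => rw [hp0, pow_zero]; rfl
      | succ i ih => rw [hps, ih, pow_succ', Equiv.Perm.mul_apply]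
    have hord : orderOf (M.bd f) = (M.bd f).support.card := hcyc.orderOf
    have hpn : p (M.bd f).support.card = x := by
      rw [hpp, ← hord, pow_orderOf_eq_one]
      rfl
    have hmem : ∀ i, p i ∈ (M.bd f).support := by
      intro i
      induction i with
      | zero => exact hx
      | succ i ih =>
        rw [hps]
        exact Equiv.Perm.apply_mem_support.2 ih
    have hinj : ∀ i j, i ≤ j → j < (M.bd f).support.card → p i = p j → i = j := by
      intro i j hij hj he
      obtain ⟨d, rfl⟩ := Nat.exists_eq_add_of_le hij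
      have h1 : ((M.bd f) ^ i) x = ((M.bd f) ^ i) (((M.bd f) ^ d) x) := by
        rw [← Equiv.Perm.mul_apply, ← pow_add, ← hpp, ← hpp]
        exact he
      have h2 : x = ((M.bd f) ^ d) x := ((M.bd f) ^ i).injective h1
      have h3 : (M.bd f) ^ d = 1 := (hcyc.pow_eq_one_iff' hxs).2 h2.symm
      have h4 : orderOf (M.bd f) ∣ d := orderOf_dvd_of_pow_eq_one h3
      rw [hord] at h4
      have h5 : d = 0 := by
        by_contra hd
        have := Nat.le_of_dvd (Nat.pos_of_ne_zero hd) h4
        omega
      omega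
    have hedge : ∀ i, s(p i, p (i + 1)) ∈ M.es f := by
      intro i
      unfold PolyMap.es cycleEdges
      exact Finset.mem_image.2 ⟨p i, hmem i, rfl⟩
    obtain ⟨k, hk, hky⟩ : ∃ k, k < (M.bd f).support.card ∧ p k = y := by
      obtain ⟨m, hm⟩ := hcyc.exists_pow_eq hxs (Equiv.Perm.mem_support.1 hy)
      refine ⟨m % (M.bd f).support.card, Nat.mod_lt _ (by omega), ?_⟩
      rw [hpp, ← hord, pow_mod_orderOf]
      exact hm
    subst hky
    have hne : ∀ i j, i < j → j < (M.bd f).support.card → p i ≠ p j := by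
      intro i j hij hj he
      have := hinj i j hij.le hj he
      omega
    obtain ⟨w, hl, hg, hs⟩ := QSF_walk (gr M.es) k p (by
      intro i hi
      exact ⟨hne i (i + 1) (by omega) (by omega), f, hedge i⟩)
    refine ⟨w, ?_, ?_⟩
    · apply SimpleGraph.Walk.IsPath.mk'
      rw [hs]
      refine List.Nodup.map_on ?_ List.nodup_range
      intro a ha b hb hab
      rw [List.mem_range] at ha hb
      rcases le_total a b with h | h
      · exact hinj a b h (by omega) hab
      · exact (hinj b a h (by omega) hab.symm).symm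
    · intro g i j hij hj hi' hj' l hil hlj
      rw [hl] at hj
      rw [hg i (by omega)] at hi'
      rw [hg j hj] at hj'
      rw [hg l (by omega), hg (l + 1) (by omega)]
      by_cases hfg : f = g
      · rw [← hfg]
        exact hedge l
      have hpij := hne i j hij (by omega)
      obtain ⟨h1, h2⟩ := QSF_both M f g hfg (p i) (p j) hpij (hmem i) (hmem j) hi' hj'
      unfold PolyMap.es cycleEdges at h1
      obtain ⟨v, hv, hve⟩ := Finset.mem_image.1 h1
      rw [Sym2.eq_iff] at hve
      rcases hve with ⟨hv1, hv2⟩ | ⟨hv1, hv2⟩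
      · rw [hv1] at hv2
        have h5 : p (i + 1) = p j := hv2
        have h6 := hinj (i + 1) j (by omega) (by omega) h5
        have h7 : l = i := by omega
        subst h7
        rw [h6]
        exact h2
      · exfalso
        rw [hv1] at hv2
        have h5 : p (j + 1) = p i := hv2
        by_cases h6 : j + 1 < (M.bd f).support.card
        · have := hinj i (j + 1) (by omega) h6 h5.symm
          omega
        · have h7 : j + 1 = (M.bd f).support.card := by omega
          rw [h7, hpn] at h5
          have h8 : i = 0 := by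
            by_contra h
            exact hne 0 i (by omega) (by omega) h5
          have h9 : j = k := by omega
          subst h8 h9
          exact hE h1
end Pool.Agent.NR
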